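import Pool.Agent.H30.Oct

namespace Pool.Agent.Results.MP_b59a08_co.Triplets

open Pool.Agent.H30.Oct

theorem result : ∀ k : ℕ, 3 ≤ k → ∃ P : Finset (EuclideanSpace ℝ (Fin 3)), IsPacking P ∧
    (P.card : ℚ) = (2 * (k : ℚ) ^ 3 + k) / 3 ∧
    4 / 3 * ((k : ℚ) - 1) * k * (4 * k - 5) < touching 3 P := by
  intro k hk
  obtain ⟨L, rfl⟩ : ∃ L, k = L + 3 := ⟨k - 3, by omega⟩
  refine ⟨pack L, pack_packing L, pack_card L, ?_⟩
  have h := (count3 L).trans_le (Nat.mul_le_mul_left 3 (touch3 L))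
  have h' : (4 * (L + 2) * (L + 3) * (4 * L + 7) : ℚ) < 3 * touching 3 (pack L) := by
    exact_mod_cast h
  push_cast
  linarith

end Pool.Agent.Results.MP_b59a08_co.Triplets
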